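import Mathlib
import Pool.Agent.H32.Twelfth

set_option autoImplicit false

namespace Pool.Agent.Results.MP_900fba_co.NotPR

theorem result : ∃ (r : ℕ) (c : ℤ → Fin r), ∀ x y w z : ℤ, x ≠ 0 → y ≠ 0 → w ≠ 0 → z ≠ 0 →
    5 ^ 4 * x + 3 ^ 6 * y = w * z ^ 12 → ¬ (c x = c w ∧ c y = c w ∧ c z = c w) := by
  obtain ⟨c, hc⟩ := Pool.Agent.H32.Twelfth.main
  refine ⟨_, fun x => Fintype.equivFin _ (c x), fun x y w z hx hy hw hz h e => ?_⟩
  exact hc x y w z hx hy hw hz ((Fintype.equivFin _).injective e.1)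
    ((Fintype.equivFin _).injective e.2.1) h

end Pool.Agent.Results.MP_900fba_co.NotPR
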